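import Mathlib
import Pool.Agent.Helper325.BorsukUlam

/-!
Counting, modulo two, the lists in a chain whose labels are prescribed; naturality of the
barycentric subdivision under linear maps; faces of a standard simplex.
-/

set_option autoImplicit false

namespace Pool.Agent.J6H35.DH

open Finsupp Pool.Agent.Helper325.BorsukUlam

section Count

variable {V : Type*}

/-- indicator that the labels of the list are exactly the multiset `M` -/
noncomputable def fM (lab : V → ℕ) (M : Multiset ℕ) (l : List V) : ZMod 2 :=
  if (↑(l.map lab) : Multiset ℕ) = M then 1 else 0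

/-- its linear extension to chains -/
noncomputable def FM (lab : V → ℕ) (M : Multiset ℕ) : Chain V →ₗ[ZMod 2] ZMod 2 :=
  Finsupp.linearCombination (ZMod 2) (fM lab M)

theorem FM_single (lab : V → ℕ) (M : Multiset ℕ) (l : List V) (a : ZMod 2) :
    FM lab M (single l a) = a * fM lab M l := by
  simp [FM]

theorem FM_cone (lab : V → ℕ) (M : Multiset ℕ) (x : V) (c : Chain V) :
    FM lab M (cone x c) = if lab x ∈ M then FM lab (M.erase (lab x)) c else 0 := by
  induction c using Finsupp.induction_linear with
  | zero => simp
  | add f g hf hg =>
    simp only [map_add, hf, hg]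
    split_ifs <;> simp
  | single l a =>
    rw [cone_single, FM_single, FM_single]
    by_cases h : lab x ∈ M
    · rw [if_pos h]
      congr 1
      unfold fM
      congr 1
      rw [List.map_cons, ← Multiset.cons_coe]
      apply propext
      constructor
      · intro h1
        rw [← h1, Multiset.erase_cons_head]
      · intro h1
        rw [h1, Multiset.cons_erase h]
    · rw [if_neg h]
      unfold fM
      rw [if_neg, mul_zero]
      intro h1
      apply h
      rw [← h1]
      simp

open Classical in
theorem FM_bdL (lab : V → ℕ) (l : List V) : ∀ (M : Multiset ℕ), M.Nodup →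
    FM lab M (bdL l) =
      if ∃ a, a ∉ M ∧ (↑(l.map lab) : Multiset ℕ) = a ::ₘ M then 1 else 0 := by
  induction l with
  | nil =>
    intro M _
    rw [bdL, map_zero, if_neg]
    rintro ⟨a, _, h⟩
    simp at h
  | cons x t ih =>
    intro M hM
    rw [bdL, map_add, FM_single, FM_cone, one_mul]
    by_cases hx : lab x ∈ M
    · rw [if_pos hx, ih _ (hM.erase _)]
      have hMe : lab x ::ₘ M.erase (lab x) = M := Multiset.cons_erase hx
      by_cases ht : (↑(t.map lab) : Multiset ℕ) = M
      · have h1 : fM lab M t = 1 := by unfold fM; rw [if_pos ht]
        rw [h1, if_pos, if_neg]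
        · exact z2_add_self 1
        · rintro ⟨a, ha, h⟩
          rw [List.map_cons, ← Multiset.cons_coe, ht] at h
          have hc := congrArg (Multiset.count a) h
          rw [Multiset.count_cons_self] at hc
          by_cases hax : a = lab x
          · subst hax; exact ha hx
          · rw [Multiset.count_cons_of_ne hax] at hc
            omega
        · refine ⟨lab x, hM.notMem_erase, ?_⟩
          rw [hMe]; exact ht
      · have h1 : fM lab M t = 0 := by unfold fM; rw [if_neg ht]
        rw [h1, zero_add]
        congr 1
        apply propext
        constructor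
        · rintro ⟨a, ha, h⟩
          have hax : a ≠ lab x := by
            rintro rfl
            apply ht
            rw [h, hMe]
          refine ⟨a, ?_, ?_⟩
          · intro haM
            apply ha
            rw [Multiset.mem_erase_of_ne hax]
            exact haM
          · rw [List.map_cons, ← Multiset.cons_coe, h, Multiset.cons_swap, hMe]
        · rintro ⟨a, ha, h⟩
          have hax : a ≠ lab x := by
            rintro rfl
            exact ha hx
          refine ⟨a, fun h' => ha (Multiset.mem_of_mem_erase h'), ?_⟩
          rw [List.map_cons, ← Multiset.cons_coe] at h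
          have h2 := congrArg (fun s => Multiset.erase s (lab x)) h
          simp only [Multiset.erase_cons_head] at h2
          rw [h2, Multiset.erase_cons_tail _ hax]
    · rw [if_neg hx, add_zero]
      unfold fM
      congr 1
      apply propext
      constructor
      · intro h
        refine ⟨lab x, hx, ?_⟩
        rw [List.map_cons, ← Multiset.cons_coe, h]
      · rintro ⟨a, ha, h⟩
        rw [List.map_cons, ← Multiset.cons_coe] at h
        have hc := congrArg (Multiset.count (lab x)) h
        rw [Multiset.count_cons_self] at hc
        by_cases hax : lab x = a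
        · rw [hax] at h
          exact (Multiset.cons_inj_right a).mp h
        · rw [Multiset.count_cons_of_ne hax, Multiset.count_eq_zero_of_notMem hx] at hc
          omega

end Count

section Nat

variable {V : Type*} [AddCommGroup V] [Module ℝ V]

/-- push forward of chains by a linear map -/
noncomputable def mapC (φ : V →ₗ[ℝ] V) : Chain V →ₗ[ZMod 2] Chain V :=
  Finsupp.lmapDomain (ZMod 2) (ZMod 2) (List.map φ)

theorem mapC_single (φ : V →ₗ[ℝ] V) (l : List V) (c : ZMod 2) :
    mapC φ (single l c) = single (l.map φ) c := by
  simp [mapC]

theorem mapC_cone (φ : V →ₗ[ℝ] V) (v : V) (c : Chain V) :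
    mapC φ (cone v c) = cone (φ v) (mapC φ c) := by
  induction c using Finsupp.induction_linear with
  | zero => simp
  | add f g hf hg => simp only [map_add, hf, hg]
  | single l b => rw [cone_single, mapC_single, mapC_single, cone_single, List.map_cons]

theorem mapC_bdL (φ : V →ₗ[ℝ] V) (l : List V) : mapC φ (bdL l) = bdL (l.map φ) := by
  induction l with
  | nil => simp [bdL]
  | cons v l ih =>
    rw [bdL, map_add, mapC_single, mapC_cone, ih, List.map_cons, bdL]

theorem bary_map (φ : V →ₗ[ℝ] V) (l : List V) : bary (l.map φ) = φ (bary l) := by
  simp only [bary, List.length_map, map_smul, map_list_sum]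

theorem mapC_sub (φ : V →ₗ[ℝ] V) (n : ℕ) (c : Chain V) :
    mapC φ (sub n c) = sub n (mapC φ c) := by
  induction n generalizing c with
  | zero => rfl
  | succ n ih =>
    induction c using Finsupp.induction_linear with
    | zero => simp
    | add f g hf hg => simp only [map_add, hf, hg]
    | single l a =>
      rw [sub_succ_single, map_smul, mapC_cone, ih, mapC_bdL, mapC_single, sub_succ_single,
        bary_map]

theorem mapC_iter (φ : V →ₗ[ℝ] V) (r k : ℕ) (c : Chain V) :
    mapC φ ((sub k)^[r] c) = (sub k)^[r] (mapC φ c) := by
  induction r generalizing c with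
  | zero => rfl
  | succ r ih => rw [Function.iterate_succ_apply, ih, mapC_sub, Function.iterate_succ_apply]

theorem FM_mapC (φ : V →ₗ[ℝ] V) (lab : V → ℕ) (M : Multiset ℕ) (c : Chain V) :
    FM lab M (mapC φ c) = FM (lab ∘ φ) M c := by
  induction c using Finsupp.induction_linear with
  | zero => simp
  | add f g hf hg => simp only [map_add, hf, hg]
  | single l a =>
    rw [mapC_single, FM_single, FM_single]
    simp [fM, List.map_map]

end Nat

/-- two linear functionals that agree on the lists with property `P` agree on chains supported
there -/
theorem FM_congr {V : Type*} {lab lab' : V → ℕ} {M M' : Multiset ℕ} {P : List V → Prop}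
    (h : ∀ l, P l → fM lab M l = fM lab' M' l) {c : Chain V} (hc : c ∈ S P) :
    FM lab M c = FM lab' M' c := by
  have := lin_eq_zero (FM lab M - FM lab' M') (P := P) (by
    intro l hl
    rw [LinearMap.sub_apply, FM_single, FM_single, h l hl, sub_self]) hc
  rw [LinearMap.sub_apply] at this
  exact sub_eq_zero.mp this

theorem FM_congr_lab {V : Type*} {lab lab' : V → ℕ} {M : Multiset ℕ} {P : List V → Prop}
    (h : ∀ l, P l → ∀ v ∈ l, lab v = lab' v) {c : Chain V} (hc : c ∈ S P) :
    FM lab M c = FM lab' M c := by
  refine FM_congr (fun l hl => ?_) hc
  have : l.map lab = l.map lab' := List.map_congr_left (h l hl)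
  simp only [fM, this]

/-- the boundary of a list as a sum over faces -/
theorem bdL_eq_sum {V : Type*} (l : List V) :
    bdL l = ∑ j ∈ Finset.range l.length, single (l.eraseIdx j) (1 : ZMod 2) := by
  induction l with
  | nil => simp [bdL]
  | cons v l ih =>
    rw [bdL, ih, List.length_cons, Finset.sum_range_succ', map_sum, add_comm]
    simp only [List.eraseIdx_cons_succ, cone_single, List.eraseIdx_zero, List.tail_cons]

theorem iter_sum {V ι : Type*} [AddCommGroup V] [Module ℝ V] (k r : ℕ) (s : Finset ι)
    (f : ι → Chain V) :
    (sub k)^[r] (∑ i ∈ s, f i) = ∑ i ∈ s, (sub k)^[r] (f i) := by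
  classical
  have h0 : (sub k)^[r] (0 : Chain V) = 0 := by
    induction r with
    | zero => rfl
    | succ r ih => rw [Function.iterate_succ_apply, map_zero, ih]
  induction s using Finset.induction_on with
  | empty => simp [h0]
  | insert a s ha ih => rw [Finset.sum_insert ha, Finset.sum_insert ha, add_iter, ih]

end Pool.Agent.J6H35.DH
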