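import Mathlib
import Pool.Agent.J6H35.DH.Count

/-!
Gap vectors, partial sums, the faces of the standard simplex and the labels used in the parity
argument.
-/

set_option autoImplicit false

namespace Pool.Agent.J6H35.DH

open Finsupp Pool.Agent.Helper325.BorsukUlam

/-- the `i`-th coordinate, extended by zero -/
noncomputable def co {m : ℕ} (w : Fin (m + 1) → ℝ) (i : ℕ) : ℝ :=
  if h : i < m + 1 then w ⟨i, h⟩ else 0

/-- partial sums -/
noncomputable def ps {m : ℕ} (w : Fin (m + 1) → ℝ) (j : ℕ) : ℝ := ∑ i ∈ Finset.range j, co w i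

/-- the finite set of all partial sums -/
noncomputable def As {m : ℕ} (w : Fin (m + 1) → ℝ) : Finset ℝ :=
  (Finset.range (m + 2)).image (ps w)

theorem co_nonneg {m : ℕ} {w : Fin (m + 1) → ℝ} (hw : ∀ i, 0 ≤ w i) (i : ℕ) : 0 ≤ co w i := by
  unfold co
  split_ifs with h
  · exact hw _
  · exact le_rfl

theorem ps_zero {m : ℕ} (w : Fin (m + 1) → ℝ) : ps w 0 = 0 := by simp [ps]

theorem ps_succ {m : ℕ} (w : Fin (m + 1) → ℝ) (j : ℕ) : ps w (j + 1) = ps w j + co w j := by
  simp [ps, Finset.sum_range_succ]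

theorem ps_mono {m : ℕ} {w : Fin (m + 1) → ℝ} (hw : ∀ i, 0 ≤ w i) : Monotone (ps w) := by
  refine monotone_nat_of_le_succ (fun j => ?_)
  rw [ps_succ]
  linarith [co_nonneg hw j]

theorem ps_last {m : ℕ} {w : Fin (m + 1) → ℝ} (hw : w ∈ stdSimplex ℝ (Fin (m + 1))) :
    ps w (m + 1) = 1 := by
  rw [ps, ← hw.2, Finset.sum_range]
  refine Finset.sum_congr rfl (fun i _ => ?_)
  exact dif_pos i.2

theorem abs_co_sub_le {m : ℕ} (w w' : Fin (m + 1) → ℝ) (i : ℕ) :
    |co w i - co w' i| ≤ ‖w - w'‖ := by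
  unfold co
  split_ifs with h
  · have := norm_le_pi_norm (w - w') ⟨i, h⟩
    simpa [Real.norm_eq_abs] using this
  · simp

theorem abs_ps_sub_le {m : ℕ} (w w' : Fin (m + 1) → ℝ) (j : ℕ) :
    |ps w j - ps w' j| ≤ j * ‖w - w'‖ := by
  induction j with
  | zero => simp [ps_zero]
  | succ j ih =>
    rw [ps_succ, ps_succ]
    have h1 := abs_co_sub_le w w' j
    have : ps w j + co w j - (ps w' j + co w' j) = (ps w j - ps w' j) + (co w j - co w' j) := by
      ring
    rw [this]
    refine (abs_add_le _ _).trans ?_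
    push_cast
    linarith

/-- remove the coordinate `J`, shifting the later ones -/
noncomputable def shf (m J : ℕ) : (Fin (m + 1) → ℝ) →ₗ[ℝ] (Fin (m + 1) → ℝ) where
  toFun w i := if (i : ℕ) < J then w i else co w (i + 1)
  map_add' w w' := by
    ext i
    simp only [Pi.add_apply]
    split_ifs with h
    · rfl
    · unfold co
      split_ifs <;> simp
  map_smul' c w := by
    ext i
    simp only [Pi.smul_apply, RingHom.id_apply]
    split_ifs with h
    · rfl
    · unfold co
      split_ifs <;> simp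

theorem co_shf {m : ℕ} (J : ℕ) (w : Fin (m + 1) → ℝ) (i : ℕ) :
    co (shf m J w) i = if i < J then co w i else co w (i + 1) := by
  by_cases h : i < m + 1
  · have : co (shf m J w) i = shf m J w ⟨i, h⟩ := by simp [co, h]
    rw [this]
    show (if i < J then w ⟨i, h⟩ else co w (i + 1)) = _
    split_ifs with h2
    · simp [co, h]
    · rfl
  · have h3 : ¬ (i + 1 < m + 1) := by omega
    simp [co, h, h3]

theorem ps_shf_le {m : ℕ} (J : ℕ) (w : Fin (m + 1) → ℝ) (j : ℕ) (hj : j ≤ J) :
    ps (shf m J w) j = ps w j := by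
  unfold ps
  refine Finset.sum_congr rfl (fun i hi => ?_)
  rw [co_shf, if_pos]
  have := Finset.mem_range.mp hi
  omega

theorem ps_shf_ge {m : ℕ} (J : ℕ) (w : Fin (m + 1) → ℝ) (hJ : co w J = 0) (j : ℕ) (hj : J ≤ j) :
    ps (shf m J w) j = ps w (j + 1) := by
  induction j, hj using Nat.le_induction with
  | base => rw [ps_shf_le J w J le_rfl, ps_succ, hJ, add_zero]
  | succ j hj ih =>
    rw [ps_succ, ih, ps_succ w (j + 1), co_shf, if_neg (by omega)]

theorem As_shf {m : ℕ} (J : ℕ) (w : Fin (m + 1) → ℝ) (hJ : co w J = 0) :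
    As (shf m J w) = As w := by
  ext x
  simp only [As, Finset.mem_image, Finset.mem_range]
  have hlast : ps w (m + 2) = ps w (m + 1) := by
    rw [ps_succ]
    simp [co]
  constructor
  · rintro ⟨j, hj, rfl⟩
    by_cases h : j ≤ J
    · exact ⟨j, hj, (ps_shf_le J w j h).symm⟩
    · rw [ps_shf_ge J w hJ j (by omega)]
      by_cases hj2 : j = m + 1
      · subst hj2
        exact ⟨m + 1, by omega, hlast.symm⟩
      · exact ⟨j + 1, by omega, rfl⟩
  · rintro ⟨j, hj, rfl⟩
    by_cases h : j ≤ J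
    · exact ⟨j, hj, ps_shf_le J w j h⟩
    · refine ⟨j - 1, by omega, ?_⟩
      rw [ps_shf_ge J w hJ (j - 1) (by omega)]
      congr 1
      omega

/-- the ordered list of the first `k` basis vectors -/
noncomputable def E (m k : ℕ) : List (Fin (m + 1) → ℝ) := (List.range k).map (ev m)

theorem co_ev {m : ℕ} (k i : ℕ) (hk : k ≤ m) : co (ev m k) i = if i = k then 1 else 0 := by
  unfold co ev
  by_cases h : i < m + 1
  · rw [dif_pos h]
  · rw [dif_neg h, if_neg (by omega)]

theorem co_ext {m : ℕ} {w w' : Fin (m + 1) → ℝ} (h : ∀ i, co w i = co w' i) : w = w' := by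
  ext i
  have h1 := h i
  unfold co at h1
  rw [dif_pos i.2, dif_pos i.2] at h1
  exact h1

theorem shf_ev_lt {m : ℕ} (J k : ℕ) (hk : k < J) (hkm : k ≤ m) : shf m J (ev m k) = ev m k := by
  refine co_ext (fun i => ?_)
  rw [co_shf]
  split_ifs with h
  · rfl
  · rw [co_ev k _ hkm, co_ev k _ hkm, if_neg (by omega), if_neg (by omega)]

theorem shf_ev_gt {m : ℕ} (J k : ℕ) (hk : J ≤ k) (hkm : k + 1 ≤ m) :
    shf m J (ev m (k + 1)) = ev m k := by
  refine co_ext (fun i => ?_)
  rw [co_shf]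
  split_ifs with h
  · rw [co_ev (k + 1) _ hkm, co_ev k _ (by omega), if_neg (by omega), if_neg (by omega)]
  · rw [co_ev (k + 1) _ hkm, co_ev k _ (by omega)]
    simp

theorem shf_face {m k J : ℕ} (hk : k ≤ m) (hJ : J ≤ k) :
    ((E m (k + 1)).eraseIdx J).map (shf m J) = E m k := by
  apply List.ext_getElem
  · rw [List.length_map, List.length_eraseIdx]
    simp [E]
    omega
  · intro i h1 h2
    rw [List.getElem_map, List.getElem_eraseIdx]
    have h3 : i < k := by simpa [E] using h2
    split_ifs with h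
    · simp only [E, List.getElem_map, List.getElem_range]
      exact shf_ev_lt J i h (by omega)
    · simp only [E, List.getElem_map, List.getElem_range]
      exact shf_ev_gt J i (by omega) (by omega)

theorem face_last {m k : ℕ} : (E m (k + 1)).eraseIdx k = E m k := by
  apply List.ext_getElem
  · rw [List.length_eraseIdx]
    simp [E]
  · intro i h1 h2
    rw [List.getElem_eraseIdx]
    have h3 : i < k := by simpa [E] using h2
    rw [dif_pos h3]
    simp [E]

theorem ev_mem {m k : ℕ} (hk : k ≤ m) : ev m k ∈ stdSimplex ℝ (Fin (m + 1)) := by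
  constructor
  · intro i
    unfold ev
    split_ifs <;> norm_num
  · unfold ev
    rw [Finset.sum_eq_single ⟨k, by omega⟩]
    · simp
    · intro b _ hb
      rw [if_neg]
      intro h
      apply hb
      ext
      exact h
    · simp

theorem mem_face {m k J : ℕ} (hk : k ≤ m) (hJ : J ≤ k) {u : Fin (m + 1) → ℝ}
    (hu : u ∈ (E m (k + 1)).eraseIdx J) :
    u ∈ stdSimplex ℝ (Fin (m + 1)) ∧ co u J = 0 ∧ ∀ i, k < i → co u i = 0 := by
  rw [List.mem_iff_getElem] at hu
  obtain ⟨i, h1, rfl⟩ := hu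
  rw [List.length_eraseIdx] at h1
  simp only [E, List.length_map, List.length_range] at h1
  rw [if_pos (by omega)] at h1
  rw [List.getElem_eraseIdx]
  split_ifs with h
  · simp only [E, List.getElem_map, List.getElem_range]
    refine ⟨ev_mem (by omega), ?_, ?_⟩
    · rw [co_ev i _ (by omega), if_neg (by omega)]
    · intro i' hi'
      rw [co_ev i _ (by omega), if_neg (by omega)]
  · simp only [E, List.getElem_map, List.getElem_range]
    refine ⟨ev_mem (by omega), ?_, ?_⟩
    · rw [co_ev (i + 1) _ (by omega), if_neg (by omega)]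
    · intro i' hi'
      rw [co_ev (i + 1) _ (by omega), if_neg (by omega)]

theorem mem_E {m k : ℕ} (hk : k ≤ m) {u : Fin (m + 1) → ℝ} (hu : u ∈ E m (k + 1)) :
    u ∈ stdSimplex ℝ (Fin (m + 1)) ∧ ∀ i, k < i → co u i = 0 := by
  simp only [E, List.mem_map, List.mem_range] at hu
  obtain ⟨i, hi, rfl⟩ := hu
  refine ⟨ev_mem (by omega), ?_⟩
  intro i' hi'
  rw [co_ev i _ (by omega), if_neg (by omega)]

/-- the convex set of points of the simplex with prescribed vanishing coordinates -/
def Fc (m : ℕ) (I : Set ℕ) : Set (Fin (m + 1) → ℝ) :=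
  {w | w ∈ stdSimplex ℝ (Fin (m + 1)) ∧ ∀ i ∈ I, co w i = 0}

theorem co_add {m : ℕ} (w w' : Fin (m + 1) → ℝ) (i : ℕ) : co (w + w') i = co w i + co w' i := by
  unfold co
  split_ifs <;> simp

theorem co_smul {m : ℕ} (c : ℝ) (w : Fin (m + 1) → ℝ) (i : ℕ) : co (c • w) i = c * co w i := by
  unfold co
  split_ifs <;> simp

theorem convex_Fc (m : ℕ) (I : Set ℕ) : Convex ℝ (Fc m I) := by
  intro x hx y hy a b ha hb hab
  refine ⟨convex_stdSimplex ℝ _ hx.1 hy.1 ha hb hab, ?_⟩
  intro i hi
  rw [co_add, co_smul, co_smul, hx.2 i hi, hy.2 i hi]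
  simp

theorem dist_simplex {m : ℕ} {u v : Fin (m + 1) → ℝ} (hu : u ∈ stdSimplex ℝ (Fin (m + 1)))
    (hv : v ∈ stdSimplex ℝ (Fin (m + 1))) : ‖u - v‖ ≤ 1 := by
  rw [pi_norm_le_iff_of_nonneg zero_le_one]
  intro i
  have h1 := hu.1 i
  have h2 := hv.1 i
  have h3 : u i ≤ 1 := by
    rw [← hu.2]; exact Finset.single_le_sum (fun j _ => hu.1 j) (Finset.mem_univ i)
  have h4 : v i ≤ 1 := by
    rw [← hv.2]; exact Finset.single_le_sum (fun j _ => hv.1 j) (Finset.mem_univ i)
  rw [Pi.sub_apply, Real.norm_eq_abs, abs_le]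
  constructor <;> linarith

end Pool.Agent.J6H35.DH
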