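import Mathlib
import Pool.Agent.J6H35.DH.Geom

/-!
There is no continuous retraction of the space of sets `{0, 1} ⊆ A ⊂ [0, 1]`, `|A| ≤ m + 2`, onto
the subspace of those with at most `m + 1` points, if `m` is even and positive.
-/

set_option autoImplicit false

namespace Pool.Agent.J6H35.DH

open Finsupp Pool.Agent.Helper325.BorsukUlam

/-- the least `i` with `P i`, or `m - 1` if there is none below `m - 1` -/
noncomputable def first (m : ℕ) (P : ℕ → Prop) : ℕ := sInf {i | P i ∨ m ≤ i + 1}

theorem first_mem (m : ℕ) (P : ℕ → Prop) : P (first m P) ∨ m ≤ first m P + 1 := by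
  have hne : ({i | P i ∨ m ≤ i + 1} : Set ℕ).Nonempty := ⟨m, Or.inr (by omega)⟩
  exact Nat.sInf_mem hne

theorem first_le (m : ℕ) (P : ℕ → Prop) {i : ℕ} (h : P i ∨ m ≤ i + 1) : first m P ≤ i :=
  Nat.sInf_le h

theorem not_of_lt_first (m : ℕ) (P : ℕ → Prop) {i : ℕ} (h : i < first m P) : ¬ P i := by
  intro hP
  have := first_le m P (Or.inl hP)
  omega

theorem first_lt (m : ℕ) (hm : 0 < m) (P : ℕ → Prop) : first m P < m := by
  have := first_le m P (i := m - 1) (Or.inr (by omega))
  omega

theorem first_spec (m : ℕ) (P : ℕ → Prop) (h : first m P + 1 < m) : P (first m P) := by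
  rcases first_mem m P with h1 | h1
  · exact h1
  · omega

theorem first_congr (m : ℕ) (P Q : ℕ → Prop) (h : ∀ i, i + 1 < m → (P i ↔ Q i)) :
    first m P = first m Q := by
  unfold first
  congr 1
  ext i
  simp only [Set.mem_ofPred_eq]
  by_cases hi : m ≤ i + 1
  · simp [hi]
  · rw [h i (by omega)]

/-- `B` meets all the windows of radius `1 / (4 m)` about `j / m`, `0 ≤ j ≤ m` -/
def Nr (m : ℕ) (B : Finset ℝ) : Prop := ∀ j : ℕ, j ≤ m → ∃ b ∈ B, |b - j / m| < 1 / (4 * m)

open Classical in
/-- the label of a finite set -/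
noncomputable def labB (m : ℕ) (B : Finset ℝ) : ℕ :=
  if Nr m B then
    first m (fun i => ∃ b ∈ B, ((i + 1 : ℕ) : ℝ) / m ≤ b ∧ b < ((i + 1 : ℕ) : ℝ) / m + 1 / (4 * m))
  else m

/-- the Sperner label of a gap vector -/
noncomputable def mu {m : ℕ} (w : Fin (m + 1) → ℝ) : ℕ :=
  first m (fun i => ((i + 1 : ℕ) : ℝ) / m ≤ ps w (i + 1))

theorem labB_le (m : ℕ) (hm : 0 < m) (B : Finset ℝ) : labB m B ≤ m := by
  unfold labB
  split_ifs
  · exact (first_lt m hm _).le
  · exact le_rfl

theorem Nr_of_labB_ne {m : ℕ} {B : Finset ℝ} (h : labB m B ≠ m) : Nr m B := by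
  by_contra hN
  apply h
  unfold labB
  rw [if_neg hN]

theorem not_Nr_of_labB_eq {m : ℕ} (hm : 0 < m) {B : Finset ℝ} (h : labB m B = m) : ¬ Nr m B := by
  intro hN
  unfold labB at h
  rw [if_pos hN] at h
  have := first_lt m hm (fun i => ∃ b ∈ B, ((i + 1 : ℕ) : ℝ) / m ≤ b ∧
    b < ((i + 1 : ℕ) : ℝ) / m + 1 / (4 * m))
  omega

/-- in a small set meeting all the windows every window has only one point -/
theorem uniq {m : ℕ} (hm : 0 < m) {B : Finset ℝ} (hB : B.card ≤ m + 1) (hN : Nr m B) {b b' : ℝ}
    (hb : b ∈ B) (hb' : b' ∈ B) {j : ℕ} (h1 : |b - j / m| < 1 / (2 * m))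
    (h2 : |b' - j / m| < 1 / (2 * m)) : b = b' := by
  have hm' : (0 : ℝ) < m := by exact_mod_cast hm
  choose! f hfB hf using hN
  have key : ∀ i k : ℕ, ∀ x y : ℝ, |x - i / m| < 1 / (4 * m) → |y - k / m| < 1 / (2 * m) →
      x = y → i = k := by
    intro i k x y hx hy hxy
    subst hxy
    have h3 : |((i : ℝ) - k) / m| < 1 / m := by
      have : ((i : ℝ) - k) / m = (x - k / m) - (x - i / m) := by ring
      rw [this]
      calc |(x - k / m) - (x - i / m)| ≤ |x - k / m| + |x - i / m| := abs_sub _ _
        _ < 1 / (2 * m) + 1 / (4 * m) := add_lt_add hy hx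
        _ = 3 / 4 * (1 / m) := by field_simp; norm_num
        _ ≤ 1 / m := by
          have : 0 < 1 / (m : ℝ) := by positivity
          linarith
    rw [abs_div, abs_of_pos hm', div_lt_div_iff_of_pos_right hm'] at h3
    have h4 : |((i : ℤ) - k : ℤ)| < 1 := by
      have : ((|((i : ℤ) - k : ℤ)| : ℤ) : ℝ) < 1 := by push_cast; exact h3
      exact_mod_cast this
    rw [Int.abs_lt_one_iff] at h4
    omega
  have hinj : Set.InjOn f (Finset.range (m + 1) : Set ℕ) := by
    intro i hi k hk hik
    have hi' : i ≤ m := by simpa [Nat.lt_succ_iff] using hi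
    have hk' : k ≤ m := by simpa [Nat.lt_succ_iff] using hk
    refine key i k (f i) (f k) (hf i hi') ((hf k hk').trans ?_) hik
    rw [div_lt_div_iff_of_pos_left one_pos (by positivity) (by positivity)]
    linarith
  have himg : (Finset.range (m + 1)).image f = B := by
    apply Finset.eq_of_subset_of_card_le
    · intro x hx
      rw [Finset.mem_image] at hx
      obtain ⟨i, hi, rfl⟩ := hx
      exact hfB i (by simpa [Nat.lt_succ_iff] using hi)
    · rw [Finset.card_image_of_injOn hinj, Finset.card_range]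
      exact hB
  have hval : ∀ x ∈ B, |x - j / m| < 1 / (2 * m) → x = f j := by
    intro x hx hxj
    rw [← himg, Finset.mem_image] at hx
    obtain ⟨k, hk, rfl⟩ := hx
    have hk' : k ≤ m := by simpa [Nat.lt_succ_iff] using hk
    have := key k j (f k) (f k) (hf k hk') hxj rfl
    rw [this]
  rw [hval b hb h1, hval b' hb' h2]

/-- for the partial sums of a nondegenerate gap vector, the `j`-th partial sum is in the `j`-th
window -/
theorem ps_window {m : ℕ} (hm : 0 < m) {w : Fin (m + 1) → ℝ}
    (hw : w ∈ stdSimplex ℝ (Fin (m + 1))) (hlast : co w m = 0) (hN : Nr m (As w)) (j : ℕ)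
    (hj : j ≤ m) : |ps w j - j / m| < 1 / (4 * m) := by
  have hm' : (0 : ℝ) < m := by exact_mod_cast hm
  have hmono := ps_mono hw.1
  have hidx : ∀ j : ℕ, j ≤ m → ∃ k, k ≤ m ∧ |ps w k - j / m| < 1 / (4 * m) := by
    intro j hj
    obtain ⟨b, hb, h⟩ := hN j hj
    simp only [As, Finset.mem_image, Finset.mem_range] at hb
    obtain ⟨k, hk, rfl⟩ := hb
    by_cases hk2 : k = m + 1
    · subst hk2
      rw [ps_succ, hlast, add_zero] at h
      exact ⟨m, le_rfl, h⟩
    · exact ⟨k, by omega, h⟩
  choose! κ hκ1 hκ2 using hidx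
  have hstep : ∀ j, j + 1 ≤ m → κ j < κ (j + 1) := by
    intro j hj
    by_contra hcon
    rw [not_lt] at hcon
    have h1 := hmono hcon
    have h2 := (abs_lt.mp (hκ2 j (by omega))).2
    have h3 := (abs_lt.mp (hκ2 (j + 1) hj)).1
    have h4 : ((j + 1 : ℕ) : ℝ) / m = j / m + 1 / m := by push_cast; ring
    rw [h4] at h3
    have h5 : 1 / (4 * (m : ℝ)) = 1 / 4 * (1 / m) := by field_simp
    rw [h5] at h2 h3
    have h6 : 0 < 1 / (m : ℝ) := by positivity
    linarith
  have hge : ∀ j, j ≤ m → j ≤ κ j := by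
    intro j
    induction j with
    | zero => intro _; omega
    | succ j ih =>
      intro hj
      have := ih (by omega)
      have := hstep j hj
      omega
  have hle : ∀ d, d ≤ m → κ (m - d) ≤ m - d := by
    intro d
    induction d with
    | zero => intro _; simpa using hκ1 m le_rfl
    | succ d ih =>
      intro hd
      have h1 := ih (by omega)
      have h2 := hstep (m - (d + 1)) (by omega)
      have h3 : m - (d + 1) + 1 = m - d := by omega
      rw [h3] at h2
      omega
  have h1 := hge j hj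
  have h2 := hle (m - j) (by omega)
  rw [show m - (m - j) = j by omega] at h2
  have h3 : κ j = j := by omega
  have h4 := hκ2 j hj
  rw [h3] at h4
  exact h4

theorem card_As_le {m : ℕ} {w : Fin (m + 1) → ℝ} {J : ℕ} (hJ : J ≤ m) (h : co w J = 0) :
    (As w).card ≤ m + 1 := by
  have : As w ⊆ ((Finset.range (m + 2)).erase (J + 1)).image (ps w) := by
    intro x hx
    simp only [As, Finset.mem_image, Finset.mem_range] at hx
    obtain ⟨k, hk, rfl⟩ := hx
    rw [Finset.mem_image]
    by_cases hkJ : k = J + 1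
    · subst hkJ
      refine ⟨J, ?_, by rw [ps_succ, h, add_zero]⟩
      rw [Finset.mem_erase, Finset.mem_range]
      omega
    · exact ⟨k, by rw [Finset.mem_erase, Finset.mem_range]; omega, rfl⟩
  refine (Finset.card_le_card this).trans (Finset.card_image_le.trans ?_)
  rw [Finset.card_erase_of_mem (by rw [Finset.mem_range]; omega), Finset.card_range]
  omega

theorem lab_eq_mu {m : ℕ} (hm : 0 < m) {w : Fin (m + 1) → ℝ}
    (hw : w ∈ stdSimplex ℝ (Fin (m + 1))) (hlast : co w m = 0) (hN : Nr m (As w)) :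
    labB m (As w) = mu w := by
  have hm' : (0 : ℝ) < m := by exact_mod_cast hm
  unfold labB mu
  rw [if_pos hN]
  apply first_congr
  intro i hi
  have hwin := ps_window hm hw hlast hN (i + 1) (by omega)
  have hlt : 1 / (4 * (m : ℝ)) < 1 / (2 * m) := by
    rw [div_lt_div_iff_of_pos_left one_pos (by positivity) (by positivity)]
    linarith
  have hmem : ps w (i + 1) ∈ As w := by
    simp only [As, Finset.mem_image, Finset.mem_range]
    exact ⟨i + 1, by omega, rfl⟩
  constructor
  · rintro ⟨b, hb, h1, h2⟩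
    have : b = ps w (i + 1) := by
      refine uniq hm (card_As_le le_rfl hlast) hN hb hmem (j := i + 1) ?_ (hwin.trans hlt)
      rw [abs_of_nonneg (by linarith)]
      linarith
    rw [← this]
    exact h1
  · intro h
    refine ⟨_, hmem, h, ?_⟩
    have := (abs_lt.mp hwin).2
    linarith

/-- lists in the subdivision lie in the same face and are small -/
theorem supp_iter {m k r : ℕ} (I : Set ℕ) {l : List (Fin (m + 1) → ℝ)} (hl : l.length = k)
    (h : ∀ u ∈ l, u ∈ Fc m I) :
    (sub k)^[r] (single l (1 : ZMod 2)) ∈ S (Good k (((k : ℝ) / (k + 1)) ^ r * 1) (Fc m I)) := by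
  refine sub_iter_good k r 1 zero_le_one (Fc m I) (convex_Fc m I) _ (single_mem_S ?_ 1)
  exact ⟨hl, h, fun u hu v hv => dist_simplex (h u hu).1 (h v hv).1⟩

theorem E_length (m k : ℕ) : (E m k).length = k := by simp [E]

theorem face_length {m k J : ℕ} (hJ : J ≤ k) : ((E m (k + 1)).eraseIdx J).length = k := by
  rw [List.length_eraseIdx, E_length, if_pos (by omega)]
  rfl

theorem bd_c (m k r : ℕ) :
    bd ((sub (k + 1))^[r] (single (E m (k + 1)) (1 : ZMod 2))) =
      ∑ j ∈ Finset.range (k + 1), (sub k)^[r] (single ((E m (k + 1)).eraseIdx j) (1 : ZMod 2)) := by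
  rw [bd_iter, bd_single, one_smul, bdL_eq_sum, iter_sum, E_length]

/-- Sperner's lemma for the labels `mu` -/
theorem sperner {m : ℕ} (hm : 0 < m) (r : ℕ) : ∀ k, k ≤ m →
    FM (mu (m := m)) (Multiset.range k) ((sub k)^[r] (single (E m k) (1 : ZMod 2))) = 1 := by
  have hm' : (0 : ℝ) < m := by exact_mod_cast hm
  intro k
  induction k with
  | zero =>
    intro _
    have : ∀ c : Chain (Fin (m + 1) → ℝ), (sub 0)^[r] c = c := by
      intro c
      induction r with
      | zero => rfl
      | succ r ih => rw [Function.iterate_succ_apply', ih]; rfl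
    rw [this, FM_single]
    simp [fM, E]
  | succ k ih =>
    intro hk
    have hsupp : (sub (k + 1))^[r] (single (E m (k + 1)) (1 : ZMod 2)) ∈
        S (Good (k + 1) ((((k + 1 : ℕ) : ℝ) / ((k + 1 : ℕ) + 1)) ^ r * 1) (Fc m {i | k < i})) :=
      supp_iter _ (E_length _ _) (fun u hu => ⟨(mem_E (by omega) hu).1, (mem_E (by omega) hu).2⟩)
    -- labels on this face
    have hlab : ∀ w ∈ Fc m {i | k < i}, mu w ≤ k := by
      intro w hw
      apply first_le
      left
      have h1 : ps w (k + 1) = 1 := by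
        rw [← ps_last hw.1]
        have : ∀ d, ps w (k + 1 + d) = ps w (k + 1) := by
          intro d
          induction d with
          | zero => rfl
          | succ d ih =>
            rw [← add_assoc, ps_succ, ih, hw.2 (k + 1 + d) (by show k < k + 1 + d; omega),
              add_zero]
        have := this (m - k)
        rw [← this]
        congr 1
        omega
      rw [h1, div_le_one hm']
      exact_mod_cast hk
    have e1 : FM (mu (m := m)) (Multiset.range (k + 1))
        ((sub (k + 1))^[r] (single (E m (k + 1)) (1 : ZMod 2))) =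
        FM (mu (m := m)) (Multiset.range k)
          (bd ((sub (k + 1))^[r] (single (E m (k + 1)) (1 : ZMod 2)))) := by
      have := lin_eq_zero (FM (mu (m := m)) (Multiset.range (k + 1)) -
        (FM (mu (m := m)) (Multiset.range k)).comp bd)
        (P := Good (k + 1) ((((k + 1 : ℕ) : ℝ) / ((k + 1 : ℕ) + 1)) ^ r * 1)
          (Fc m {i | k < i})) (by
        intro l hl
        rw [LinearMap.sub_apply, LinearMap.comp_apply, bd_single, one_smul, FM_single, one_mul,
          FM_bdL _ _ _ (Multiset.nodup_range k), sub_eq_zero]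
        unfold fM
        congr 1
        apply propext
        constructor
        · intro h
          exact ⟨k, Multiset.notMem_range_self, by rw [h, Multiset.range_succ]⟩
        · rintro ⟨a, ha, h⟩
          have hak : a ≤ k := by
            have : a ∈ (↑(l.map mu) : Multiset ℕ) := by rw [h]; exact Multiset.mem_cons_self _ _
            rw [Multiset.mem_coe, List.mem_map] at this
            obtain ⟨w, hw, rfl⟩ := this
            exact hlab w (hl.2.1 w hw)
          rw [Multiset.mem_range] at ha
          have : a = k := by omega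
          rw [h, this, Multiset.range_succ]) hsupp
      rw [LinearMap.sub_apply, LinearMap.comp_apply] at this
      exact sub_eq_zero.mp this
    rw [e1, bd_c, map_sum, Finset.sum_range_succ, face_last, ih (by omega),
      Finset.sum_eq_zero, zero_add]
    intro j hj
    rw [Finset.mem_range] at hj
    have hs : (sub k)^[r] (single ((E m (k + 1)).eraseIdx j) (1 : ZMod 2)) ∈
        S (Good k (((k : ℝ) / (k + 1)) ^ r * 1) (Fc m {j})) := by
      refine supp_iter _ (face_length hj.le) (fun u hu => ?_)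
      have := mem_face (by omega) hj.le hu
      exact ⟨this.1, by rintro i rfl; exact this.2.1⟩
    refine lin_eq_zero _ (fun l hl => ?_) hs
    rw [FM_single, one_mul]
    unfold fM
    rw [if_neg]
    intro h
    have hmem : j ∈ (↑(l.map mu) : Multiset ℕ) := by
      rw [h, Multiset.mem_range]; exact hj
    rw [Multiset.mem_coe, List.mem_map] at hmem
    obtain ⟨w, hw, hwj⟩ := hmem
    have hw' := hl.2.1 w hw
    have hcj := hw'.2 j rfl
    have hj1 : j + 1 < m := by omega
    have h1 : ((j + 1 : ℕ) : ℝ) / m ≤ ps w (j + 1) := by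
      have := first_spec m (fun i => ((i + 1 : ℕ) : ℝ) / m ≤ ps w (i + 1))
        (by show mu w + 1 < m; omega)
      have h2 : first m (fun i => ((i + 1 : ℕ) : ℝ) / m ≤ ps w (i + 1)) = j := hwj
      rw [h2] at this
      exact this
    rw [ps_succ, hcj, add_zero] at h1
    rcases Nat.eq_zero_or_pos j with h0 | h0
    · subst h0
      rw [ps_zero] at h1
      have : (0 : ℝ) < ((0 + 1 : ℕ) : ℝ) / m := by positivity
      linarith
    · have h2 := not_of_lt_first m (fun i => ((i + 1 : ℕ) : ℝ) / m ≤ ps w (i + 1)) (i := j - 1)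
        (by show j - 1 < mu w; omega)
      rw [show j - 1 + 1 = j by omega] at h2
      apply h2
      refine le_trans ?_ h1
      gcongr
      omega

/-- the labels of `As` and the Sperner labels give the same count on fine chains of the last
face -/
theorem count_last {m : ℕ} (hm : 0 < m) (r : ℕ)
    (hr : (m + 1) * (((m : ℝ) / (m + 1)) ^ r * 1) < 1 / (4 * m)) :
    FM (fun w : Fin (m + 1) → ℝ => labB m (As w)) (Multiset.range m)
      ((sub m)^[r] (single (E m m) (1 : ZMod 2))) = 1 := by
  have hm' : (0 : ℝ) < m := by exact_mod_cast hm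
  refine Eq.trans ?_ (sperner hm r m le_rfl)
  have hs : (sub m)^[r] (single (E m m) (1 : ZMod 2)) ∈
      S (Good m (((m : ℝ) / (m + 1)) ^ r * 1) (Fc m {m})) := by
    refine supp_iter _ (E_length _ _) (fun u hu => ?_)
    rw [← face_last] at hu
    have := mem_face le_rfl le_rfl hu
    exact ⟨this.1, by rintro i rfl; exact this.2.1⟩
  refine FM_congr (fun l hl => ?_) hs
  by_cases hN : ∀ w ∈ l, Nr m (As w)
  · have : l.map (fun w : Fin (m + 1) → ℝ => labB m (As w)) = l.map mu :=
      List.map_congr_left (fun w hw => lab_eq_mu hm (hl.2.1 w hw).1 ((hl.2.1 w hw).2 m rfl)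
        (hN w hw))
    simp only [fM, this]
  · push Not at hN
    obtain ⟨w, hw, hNw⟩ := hN
    have h1 : fM (fun w : Fin (m + 1) → ℝ => labB m (As w)) (Multiset.range m) l = 0 := by
      unfold fM
      rw [if_neg]
      intro h
      have : labB m (As w) ∈ Multiset.range m := by
        rw [← h, Multiset.mem_coe, List.mem_map]
        exact ⟨w, hw, rfl⟩
      rw [Multiset.mem_range] at this
      exact hNw (Nr_of_labB_ne (by omega))
    have h2 : fM (mu (m := m)) (Multiset.range m) l = 0 := by
      unfold fM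
      rw [if_neg]
      intro h
      apply hNw
      have hex : ∀ j, j < m → ∃ u ∈ l, mu u = j := by
        intro j hj
        have : j ∈ (↑(l.map mu) : Multiset ℕ) := by rw [h, Multiset.mem_range]; exact hj
        rw [Multiset.mem_coe, List.mem_map] at this
        exact this
      have hw' := hl.2.1 w hw
      intro j hj
      refine ⟨ps w j, ?_, ?_⟩
      · simp only [As, Finset.mem_image, Finset.mem_range]
        exact ⟨j, by omega, rfl⟩
      · rcases Nat.eq_zero_or_pos j with h0 | h0
        · subst h0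
          rw [ps_zero]
          simp only [Nat.cast_zero, zero_div, sub_zero, abs_zero]
          positivity
        · by_cases hjm : j = m
          · have h3 : ps w m = 1 := by
              have := ps_last hw'.1
              rw [ps_succ, hw'.2 m rfl, add_zero] at this
              exact this
            rw [hjm, h3, div_self hm'.ne', sub_self, abs_zero]
            positivity
          · -- some point is above `j / m`, another one below
            obtain ⟨u, hu, hmu⟩ := hex (j - 1) (by omega)
            obtain ⟨v, hv, hmv⟩ := hex j (by omega)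
            have h4 : (j : ℝ) / m ≤ ps u j := by
              have := first_spec m (fun i => ((i + 1 : ℕ) : ℝ) / m ≤ ps u (i + 1))
                (by show mu u + 1 < m; omega)
              have h2 : first m (fun i => ((i + 1 : ℕ) : ℝ) / m ≤ ps u (i + 1)) = j - 1 := hmu
              rw [h2, show j - 1 + 1 = j by omega] at this
              exact this
            have h5 : ps v j < (j : ℝ) / m := by
              have h2 := not_of_lt_first m (fun i => ((i + 1 : ℕ) : ℝ) / m ≤ ps v (i + 1))
                (i := j - 1) (by show j - 1 < mu v; omega)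
              rw [show j - 1 + 1 = j by omega, not_le] at h2
              exact h2
            have hd : ∀ x ∈ l, |ps w j - ps x j| < 1 / (4 * m) := by
              intro x hx
              refine lt_of_le_of_lt ((abs_ps_sub_le w x j).trans ?_) hr
              have h6 := hl.2.2 w hw x hx
              have h7 : (j : ℝ) ≤ m + 1 := by exact_mod_cast (by omega : j ≤ m + 1)
              exact mul_le_mul h7 h6 (norm_nonneg _) (by positivity)
            have h8 := abs_lt.mp (hd u hu)
            have h9 := abs_lt.mp (hd v hv)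
            rw [abs_lt]
            constructor <;> linarith
    rw [h1, h2]

/-- **Nonexistence of a continuous retraction.** -/
theorem no_rho (m : ℕ) (hev : Even m) (hm : 0 < m) (ρ : (Fin (m + 1) → ℝ) → Finset ℝ)
    (h0 : ∀ w ∈ stdSimplex ℝ (Fin (m + 1)), (0 : ℝ) ∈ ρ w)
    (h1 : ∀ w ∈ stdSimplex ℝ (Fin (m + 1)), (1 : ℝ) ∈ ρ w)
    (hcard : ∀ w ∈ stdSimplex ℝ (Fin (m + 1)), (ρ w).card ≤ m + 1)
    (hb : ∀ w ∈ stdSimplex ℝ (Fin (m + 1)), ∀ j ≤ m, co w j = 0 → ρ w = As w)
    (hu : ∀ δ > 0, ∃ γ > 0, ∀ w ∈ stdSimplex ℝ (Fin (m + 1)), ∀ w' ∈ stdSimplex ℝ (Fin (m + 1)),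
      ‖w - w'‖ ≤ γ → ∀ b ∈ ρ w, ∃ b' ∈ ρ w', |b - b'| ≤ δ) : False := by
  have hm' : (0 : ℝ) < m := by exact_mod_cast hm
  have hδ : (0 : ℝ) < 1 / (16 * m) := by positivity
  obtain ⟨γ, hγ, hργ⟩ := hu (1 / (16 * m)) hδ
  -- choose the number of subdivisions
  obtain ⟨r, hr1, hr2⟩ : ∃ r : ℕ, (m + 1) * (((m : ℝ) / (m + 1)) ^ r * 1) < 1 / (4 * m) ∧
      (((m + 1 : ℕ) : ℝ) / ((m + 1 : ℕ) + 1)) ^ r * 1 ≤ γ := by
    have ht1 : Filter.Tendsto (fun r : ℕ => (m + 1) * (((m : ℝ) / (m + 1)) ^ r * 1))
        Filter.atTop (nhds 0) := by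
      have := tendsto_pow_atTop_nhds_zero_of_lt_one (r := (m : ℝ) / (m + 1)) (by positivity)
        (by rw [div_lt_one (by positivity)]; linarith)
      simpa using this.const_mul ((m : ℝ) + 1)
    have ht2 : Filter.Tendsto (fun r : ℕ => (((m + 1 : ℕ) : ℝ) / ((m + 1 : ℕ) + 1)) ^ r * 1)
        Filter.atTop (nhds 0) := by
      have := tendsto_pow_atTop_nhds_zero_of_lt_one
        (r := ((m + 1 : ℕ) : ℝ) / ((m + 1 : ℕ) + 1)) (by positivity)
        (by rw [div_lt_one (by positivity)]; linarith)
      simpa using this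
    have e1 := ht1.eventually (gt_mem_nhds (show (0 : ℝ) < 1 / (4 * m) by positivity))
    have e2 := ht2.eventually (gt_mem_nhds hγ)
    obtain ⟨r, h⟩ := (e1.and e2).exists
    exact ⟨r, h.1, h.2.le⟩
  set Λ : (Fin (m + 1) → ℝ) → ℕ := fun w => labB m (ρ w) with hΛ
  -- no list of the fine chain has all the labels
  have hsupp : (sub (m + 1))^[r] (single (E m (m + 1)) (1 : ZMod 2)) ∈
      S (Good (m + 1) ((((m + 1 : ℕ) : ℝ) / ((m + 1 : ℕ) + 1)) ^ r * 1) (Fc m ∅)) :=
    supp_iter _ (E_length _ _) (fun u hu => ⟨(mem_E le_rfl hu).1, by simp⟩)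
  have hzero : FM Λ (Multiset.range m)
      (bd ((sub (m + 1))^[r] (single (E m (m + 1)) (1 : ZMod 2)))) = 0 := by
    refine lin_eq_zero ((FM Λ (Multiset.range m)).comp bd) (fun l hl => ?_) hsupp
    rw [LinearMap.comp_apply, bd_single, one_smul, FM_bdL _ _ _ (Multiset.nodup_range m), if_neg]
    rintro ⟨a, ha, h⟩
    have hex : ∀ j, j = a ∨ j < m → ∃ u ∈ l, Λ u = j := by
      intro j hj
      have : j ∈ (↑(l.map Λ) : Multiset ℕ) := by
        rw [h, Multiset.mem_cons, Multiset.mem_range]; exact hj
      rw [Multiset.mem_coe, List.mem_map] at this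
      exact this
    have hclose : ∀ u ∈ l, ∀ v ∈ l, ∀ b ∈ ρ u, ∃ b' ∈ ρ v, |b - b'| ≤ 1 / (16 * m) :=
      fun u hu v hv => hργ u (hl.2.1 u hu).1 v (hl.2.1 v hv).1 ((hl.2.2 u hu v hv).trans hr2)
    obtain ⟨z, hz, hza⟩ := hex a (Or.inl rfl)
    have ham : a = m := by
      have h1 := labB_le m hm (ρ z)
      rw [Multiset.mem_range] at ha
      have : labB m (ρ z) = a := hza
      omega
    apply not_Nr_of_labB_eq hm (hza.trans ham)
    intro j hj
    rcases Nat.eq_zero_or_pos j with hj0 | hj0
    · subst hj0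
      refine ⟨0, h0 z (hl.2.1 z hz).1, ?_⟩
      simp only [Nat.cast_zero, zero_div, sub_zero, abs_zero]
      positivity
    by_cases hjm : j = m
    · refine ⟨1, h1 z (hl.2.1 z hz).1, ?_⟩
      rw [hjm, div_self hm'.ne', sub_self, abs_zero]
      positivity
    obtain ⟨u, hu, hmu⟩ := hex (j - 1) (Or.inr (by omega))
    obtain ⟨v, hv, hmv⟩ := hex j (Or.inr (by omega))
    have hNu : Nr m (ρ u) := Nr_of_labB_ne (by have : labB m (ρ u) = j - 1 := hmu; omega)
    have hNv : Nr m (ρ v) := Nr_of_labB_ne (by have : labB m (ρ v) = j := hmv; omega)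
    have h4 : ∃ b ∈ ρ u, (j : ℝ) / m ≤ b ∧ b < (j : ℝ) / m + 1 / (4 * m) := by
      have h2 : first m (fun i => ∃ b ∈ ρ u, ((i + 1 : ℕ) : ℝ) / m ≤ b ∧
          b < ((i + 1 : ℕ) : ℝ) / m + 1 / (4 * m)) = j - 1 := by
        have : labB m (ρ u) = j - 1 := hmu
        unfold labB at this
        rw [if_pos hNu] at this
        exact this
      have := first_spec m (fun i => ∃ b ∈ ρ u, ((i + 1 : ℕ) : ℝ) / m ≤ b ∧
          b < ((i + 1 : ℕ) : ℝ) / m + 1 / (4 * m)) (by omega)
      rw [h2, show j - 1 + 1 = j by omega] at this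
      exact this
    have h5 : ∃ b ∈ ρ v, |b - j / m| < 1 / (4 * m) ∧ b < j / m := by
      obtain ⟨b, hb, hbj⟩ := hNv j hj
      refine ⟨b, hb, hbj, ?_⟩
      have h2 : first m (fun i => ∃ b ∈ ρ v, ((i + 1 : ℕ) : ℝ) / m ≤ b ∧
          b < ((i + 1 : ℕ) : ℝ) / m + 1 / (4 * m)) = j := by
        have : labB m (ρ v) = j := hmv
        unfold labB at this
        rw [if_pos hNv] at this
        exact this
      have h3 := not_of_lt_first m (fun i => ∃ b ∈ ρ v, ((i + 1 : ℕ) : ℝ) / m ≤ b ∧
          b < ((i + 1 : ℕ) : ℝ) / m + 1 / (4 * m)) (i := j - 1) (by omega)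
      rw [show j - 1 + 1 = j by omega] at h3
      by_contra hcon
      rw [not_lt] at hcon
      exact h3 ⟨b, hb, hcon, by linarith [(abs_lt.mp hbj).2]⟩
    obtain ⟨b, hbu, hb1, hb2⟩ := h4
    obtain ⟨b₁, hbv, hb3, hb4⟩ := h5
    obtain ⟨b₂, hb2v, hb5⟩ := hclose u hu v hv b hbu
    have e4 : (1 : ℝ) / (4 * m) = 4 * (1 / (16 * m)) := by field_simp; norm_num
    have e2 : (1 : ℝ) / (2 * m) = 8 * (1 / (16 * m)) := by field_simp; norm_num
    have hb5' := abs_le.mp hb5
    have hb3' := abs_lt.mp hb3
    have heq : b₂ = b₁ := by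
      refine uniq hm (hcard v (hl.2.1 v hv).1) hNv hb2v hbv (j := j) ?_ ?_
      · rw [abs_lt, e2]
        rw [e4] at hb2
        constructor <;> linarith
      · rw [abs_lt, e2]
        rw [e4] at hb3'
        constructor <;> linarith
    obtain ⟨b₃, hb3z, hb6⟩ := hclose v hv z hz b₁ hbv
    refine ⟨b₃, hb3z, ?_⟩
    have hb6' := abs_le.mp hb6
    rw [heq] at hb5'
    rw [abs_lt, e4]
    constructor <;> linarith
  -- the boundary
  rw [bd_c, map_sum] at hzero
  have hface : ∀ j ∈ Finset.range (m + 1), FM Λ (Multiset.range m)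
      ((sub m)^[r] (single ((E m (m + 1)).eraseIdx j) (1 : ZMod 2))) = 1 := by
    intro j hj
    have hj' : j ≤ m := by simpa [Nat.lt_succ_iff] using hj
    have hs : (sub m)^[r] (single ((E m (m + 1)).eraseIdx j) (1 : ZMod 2)) ∈
        S (Good m (((m : ℝ) / (m + 1)) ^ r * 1) (Fc m {j})) := by
      refine supp_iter _ (face_length hj') (fun u hu => ?_)
      have := mem_face le_rfl hj' hu
      exact ⟨this.1, by rintro i rfl; exact this.2.1⟩
    rw [FM_congr_lab (lab' := (fun w : Fin (m + 1) → ℝ => labB m (As w)) ∘ (shf m j))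
      (fun l hl w hw => ?_) hs, ← FM_mapC, mapC_iter, mapC_single, shf_face le_rfl hj']
    · exact count_last hm r hr1
    · have hw' := hl.2.1 w hw
      show labB m (ρ w) = labB m (As (shf m j w))
      rw [As_shf j w (hw'.2 j rfl), hb w hw'.1 j hj' (hw'.2 j rfl)]
  rw [Finset.sum_congr rfl hface, Finset.sum_const, Finset.card_range, nsmul_eq_mul, mul_one]
    at hzero
  obtain ⟨k, hk⟩ := hev
  rw [hk] at hzero
  push_cast at hzero
  rw [z2_add_self, zero_add] at hzero
  exact one_ne_zero hzero

end Pool.Agent.J6H35.DH
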