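import Mathlib
import Pool.Agent.J6H35.DH.Main

/-!
A `C`-Lipschitz retraction of the space of subsets with at most `n` points of a nonzero real inner
product space onto the space of subsets with at most `n - 1` points, `n ≥ 4` even, has
`C ≥ n - 2`.
-/

set_option autoImplicit false

namespace Pool.Agent.J6H35.DH

open Metric

theorem exists_near {X : Type*} [MetricSpace X] {A B : Finset X} (hA : A.Nonempty)
    (hB : B.Nonempty) {x : X} (hx : x ∈ A) :
    ∃ y ∈ B, dist x y ≤ hausdorffDist (A : Set X) (B : Set X) := by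
  obtain ⟨y, hy, h⟩ := (B.finite_toSet.isCompact).exists_infDist_eq_dist hB x
  refine ⟨y, hy, ?_⟩
  rw [← h]
  refine infDist_le_hausdorffDist_of_mem hx ?_
  exact hausdorffEDist_ne_top_of_nonempty_of_bounded hA hB A.finite_toSet.isBounded
    B.finite_toSet.isBounded

/-- the moved partial sums, where the gap `i` has been closed -/
noncomputable def psc {m : ℕ} (w : Fin (m + 1) → ℝ) (i j : ℕ) : ℝ :=
  if j = i ∨ j = i + 1 then (ps w i + ps w (i + 1)) / 2 else ps w j

noncomputable def Ac {m : ℕ} (w : Fin (m + 1) → ℝ) (i : ℕ) : Finset ℝ :=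
  (Finset.range (m + 2)).image (psc w i)

theorem card_Ac {m : ℕ} (w : Fin (m + 1) → ℝ) {i : ℕ} (hi : i ≤ m) : (Ac w i).card ≤ m + 1 := by
  have : Ac w i ⊆ ((Finset.range (m + 2)).erase (i + 1)).image (psc w i) := by
    intro x hx
    simp only [Ac, Finset.mem_image, Finset.mem_range] at hx
    obtain ⟨k, hk, rfl⟩ := hx
    rw [Finset.mem_image]
    by_cases hki : k = i + 1
    · subst hki
      refine ⟨i, ?_, by simp [psc]⟩
      rw [Finset.mem_erase, Finset.mem_range]
      omega
    · exact ⟨k, by rw [Finset.mem_erase, Finset.mem_range]; omega, rfl⟩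
  refine (Finset.card_le_card this).trans (Finset.card_image_le.trans ?_)
  rw [Finset.card_erase_of_mem (by rw [Finset.mem_range]; omega), Finset.card_range]
  omega

theorem abs_ps_sub_psc {m : ℕ} {w : Fin (m + 1) → ℝ} (hw : ∀ i, 0 ≤ w i) (i j : ℕ) :
    |ps w j - psc w i j| ≤ co w i / 2 := by
  have h0 := co_nonneg hw i
  have h1 := ps_succ w i
  unfold psc
  split_ifs with h
  · rcases h with rfl | rfl
    · rw [h1, abs_le]; constructor <;> linarith
    · rw [h1, abs_le]; constructor <;> linarith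
  · simp only [sub_self, abs_zero]
    positivity

theorem As_nonempty {m : ℕ} (w : Fin (m + 1) → ℝ) : (As w).Nonempty :=
  ⟨ps w 0, by simp only [As, Finset.mem_image, Finset.mem_range]; exact ⟨0, by omega, rfl⟩⟩

theorem Ac_nonempty {m : ℕ} (w : Fin (m + 1) → ℝ) (i : ℕ) : (Ac w i).Nonempty :=
  ⟨psc w i 0, by simp only [Ac, Finset.mem_image, Finset.mem_range]; exact ⟨0, by omega, rfl⟩⟩

theorem card_As {m : ℕ} (w : Fin (m + 1) → ℝ) : (As w).card ≤ m + 2 :=
  Finset.card_image_le.trans (by rw [Finset.card_range])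

theorem exists_small {m : ℕ} {w : Fin (m + 1) → ℝ} (hw : w ∈ stdSimplex ℝ (Fin (m + 1))) :
    ∃ i ≤ m, co w i ≤ 1 / (m + 1) := by
  by_contra hcon
  push Not at hcon
  have hsum : ∑ i : Fin (m + 1), (1 / ((m : ℝ) + 1)) < ∑ i : Fin (m + 1), w i := by
    refine Finset.sum_lt_sum_of_nonempty Finset.univ_nonempty (fun i _ => ?_)
    have := hcon i (by omega)
    unfold co at this
    rw [dif_pos i.2] at this
    exact this
  rw [hw.2, Finset.sum_const, Finset.card_univ, Fintype.card_fin, nsmul_eq_mul] at hsum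
  push_cast at hsum
  rw [mul_one_div_cancel (by positivity)] at hsum
  exact lt_irrefl _ hsum

/-- The case of the line. -/
theorem line (m : ℕ) (hev : Even m) (hm : 0 < m) (C : ℝ) (r : Finset ℝ → Finset ℝ)
    (h1 : ∀ s : Finset ℝ, s.Nonempty → s.card ≤ m + 2 → (r s).Nonempty ∧ (r s).card ≤ m + 1)
    (h2 : ∀ s : Finset ℝ, s.Nonempty → s.card ≤ m + 1 → r s = s)
    (h3 : ∀ s t : Finset ℝ, s.Nonempty → s.card ≤ m + 2 → t.Nonempty → t.card ≤ m + 2 →
      hausdorffDist (r s : Set ℝ) (r t : Set ℝ) ≤ C * hausdorffDist (s : Set ℝ) (t : Set ℝ)) :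
    (m : ℝ) ≤ C := by
  by_contra hlt
  rw [not_le] at hlt
  have hm' : (0 : ℝ) < m := by exact_mod_cast hm
  -- the constant is at least one
  have hC : 1 ≤ C := by
    have := h3 {0} {1} (by simp) (by simp) (by simp) (by simp)
    rw [h2 {0} (by simp) (by simp), h2 {1} (by simp) (by simp)] at this
    simp only [Finset.coe_singleton, hausdorffDist_singleton] at this
    norm_num at this
    exact this
  have hC0 : 0 ≤ C := by linarith
  set κ : ℝ := (C + 1) / (2 * (m + 1)) with hκ
  have hκ2 : 0 < 1 - 2 * κ := by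
    have : 2 * κ < 1 := by
      rw [hκ]
      have : 2 * ((C + 1) / (2 * ((m : ℝ) + 1))) = (C + 1) / (m + 1) := by field_simp
      rw [this, div_lt_one (by positivity)]
      linarith
    linarith
  have hne : ∀ w : Fin (m + 1) → ℝ, (r (As w)).Nonempty := fun w =>
    (h1 _ (As_nonempty w) (card_As w)).1
  -- points near the ends
  have hends : ∀ w ∈ stdSimplex ℝ (Fin (m + 1)), ∀ x ∈ As w, ∃ b ∈ r (As w), |x - b| ≤ κ := by
    intro w hw x hx
    obtain ⟨i, him, hi⟩ := exists_small hw
    have hd : hausdorffDist (As w : Set ℝ) (Ac w i : Set ℝ) ≤ co w i / 2 := by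
      refine hausdorffDist_le_of_mem_dist (by have := co_nonneg hw.1 i; positivity) ?_ ?_
      · intro x hx
        rw [Finset.mem_coe] at hx
        simp only [As, Finset.mem_image, Finset.mem_range] at hx
        obtain ⟨k, hk, rfl⟩ := hx
        refine ⟨psc w i k, ?_, ?_⟩
        · rw [Finset.mem_coe]
          simp only [Ac, Finset.mem_image, Finset.mem_range]
          exact ⟨k, hk, rfl⟩
        · rw [Real.dist_eq]; exact abs_ps_sub_psc hw.1 i k
      · intro x hx
        rw [Finset.mem_coe] at hx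
        simp only [Ac, Finset.mem_image, Finset.mem_range] at hx
        obtain ⟨k, hk, rfl⟩ := hx
        refine ⟨ps w k, ?_, ?_⟩
        · rw [Finset.mem_coe]
          simp only [As, Finset.mem_image, Finset.mem_range]
          exact ⟨k, hk, rfl⟩
        · rw [dist_comm, Real.dist_eq]; exact abs_ps_sub_psc hw.1 i k
    have h4 := h3 (Ac w i) (As w) (Ac_nonempty w i) ((card_Ac w him).trans (by omega))
      (As_nonempty w) (card_As w)
    rw [h2 (Ac w i) (Ac_nonempty w i) (card_Ac w him)] at h4
    obtain ⟨y, hy, hxy⟩ := exists_near (As_nonempty w) (Ac_nonempty w i) hx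
    obtain ⟨b, hb, hyb⟩ := exists_near (Ac_nonempty w i) (hne w) hy
    refine ⟨b, hb, ?_⟩
    rw [Real.dist_eq] at hxy hyb
    have h5 : hausdorffDist (As w : Set ℝ) (Ac w i : Set ℝ) ≤ 1 / (2 * (m + 1)) := by
      refine hd.trans ?_
      have : 1 / (2 * ((m : ℝ) + 1)) = 1 / (m + 1) / 2 := by field_simp
      rw [this]
      linarith
    have h6 : |x - b| ≤ |x - y| + |y - b| := abs_sub_le x y b
    rw [hausdorffDist_comm (s := (Ac w i : Set ℝ)) (t := (As w : Set ℝ))] at h4
    have h7 : C * hausdorffDist (As w : Set ℝ) (Ac w i : Set ℝ) ≤ C * (1 / (2 * (m + 1))) :=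
      mul_le_mul_of_nonneg_left h5 hC0
    have h8 : κ = C * (1 / (2 * (m + 1))) + 1 / (2 * (m + 1)) := by rw [hκ]; ring
    rw [h8]
    linarith
  have hmem0 : ∀ w : Fin (m + 1) → ℝ, (0 : ℝ) ∈ As w := by
    intro w
    simp only [As, Finset.mem_image, Finset.mem_range]
    exact ⟨0, by omega, ps_zero w⟩
  have hmem1 : ∀ w ∈ stdSimplex ℝ (Fin (m + 1)), (1 : ℝ) ∈ As w := by
    intro w hw
    simp only [As, Finset.mem_image, Finset.mem_range]
    exact ⟨m + 1, by omega, ps_last hw⟩
  -- minimum and maximum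
  let a : (Fin (m + 1) → ℝ) → ℝ := fun w => (r (As w)).min' (hne w)
  let z : (Fin (m + 1) → ℝ) → ℝ := fun w => (r (As w)).max' (hne w)
  have hale : ∀ w, ∀ x ∈ r (As w), a w ≤ x := fun w x hx => Finset.min'_le _ x hx
  have hzge : ∀ w, ∀ x ∈ r (As w), x ≤ z w := fun w x hx => Finset.le_max' _ x hx
  have hamem : ∀ w, a w ∈ r (As w) := fun w => Finset.min'_mem _ _
  have hzmem : ∀ w, z w ∈ r (As w) := fun w => Finset.max'_mem _ _
  have hdiam : ∀ w ∈ stdSimplex ℝ (Fin (m + 1)), 1 - 2 * κ ≤ z w - a w := by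
    intro w hw
    obtain ⟨b, hb, hb'⟩ := hends w hw 0 (hmem0 w)
    obtain ⟨c, hc, hc'⟩ := hends w hw 1 (hmem1 w hw)
    have := hale w b hb
    have := hzge w c hc
    have := abs_le.mp hb'
    have := abs_le.mp hc'
    linarith
  let ρ : (Fin (m + 1) → ℝ) → Finset ℝ := fun w =>
    (r (As w)).image (fun x => (x - a w) / (z w - a w))
  -- continuity of the data
  have hlip : ∀ w w' : Fin (m + 1) → ℝ, ∀ x ∈ r (As w), ∃ x' ∈ r (As w'),
      |x - x'| ≤ C * ((m + 1) * ‖w - w'‖) := by
    intro w w' x hx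
    obtain ⟨y, hy, hxy⟩ := exists_near (hne w) (hne w') hx
    refine ⟨y, hy, ?_⟩
    rw [Real.dist_eq] at hxy
    refine hxy.trans ((h3 _ _ (As_nonempty w) (card_As w) (As_nonempty w') (card_As w')).trans ?_)
    refine mul_le_mul_of_nonneg_left ?_ hC0
    have hb : ∀ k < m + 2, |ps w k - ps w' k| ≤ (m + 1) * ‖w - w'‖ := by
      intro k hk
      refine (abs_ps_sub_le w w' k).trans (mul_le_mul_of_nonneg_right ?_ (norm_nonneg _))
      exact_mod_cast (by omega : k ≤ m + 1)
    refine hausdorffDist_le_of_mem_dist (by positivity) ?_ ?_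
    · intro x hx
      rw [Finset.mem_coe] at hx
      simp only [As, Finset.mem_image, Finset.mem_range] at hx
      obtain ⟨k, hk, rfl⟩ := hx
      refine ⟨ps w' k, ?_, by rw [Real.dist_eq]; exact hb k hk⟩
      rw [Finset.mem_coe]
      simp only [As, Finset.mem_image, Finset.mem_range]
      exact ⟨k, hk, rfl⟩
    · intro x hx
      rw [Finset.mem_coe] at hx
      simp only [As, Finset.mem_image, Finset.mem_range] at hx
      obtain ⟨k, hk, rfl⟩ := hx
      refine ⟨ps w k, ?_, by rw [dist_comm, Real.dist_eq]; exact hb k hk⟩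
      rw [Finset.mem_coe]
      simp only [As, Finset.mem_image, Finset.mem_range]
      exact ⟨k, hk, rfl⟩
  have ha_lip : ∀ w w' : Fin (m + 1) → ℝ, a w' ≤ a w + C * ((m + 1) * ‖w - w'‖) := by
    intro w w'
    obtain ⟨x', hx', h⟩ := hlip w w' (a w) (hamem w)
    have := hale w' x' hx'
    have := abs_le.mp h
    linarith
  have hz_lip : ∀ w w' : Fin (m + 1) → ℝ, z w ≤ z w' + C * ((m + 1) * ‖w - w'‖) := by
    intro w w'
    obtain ⟨x', hx', h⟩ := hlip w w' (z w) (hzmem w)
    have := hzge w' x' hx'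
    have := abs_le.mp h
    linarith
  refine no_rho m hev hm ρ ?_ ?_ ?_ ?_ ?_
  · intro w _
    exact Finset.mem_image.mpr ⟨a w, hamem w, by simp⟩
  · intro w hw
    refine Finset.mem_image.mpr ⟨z w, hzmem w, div_self ?_⟩
    have := hdiam w hw
    linarith
  · intro w _
    exact Finset.card_image_le.trans (h1 _ (As_nonempty w) (card_As w)).2
  · intro w hw j hj hj0
    have hr : r (As w) = As w := h2 _ (As_nonempty w) (card_As_le hj hj0)
    have hbounds : ∀ x ∈ As w, 0 ≤ x ∧ x ≤ 1 := by
      intro x hx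
      simp only [As, Finset.mem_image, Finset.mem_range] at hx
      obtain ⟨k, hk, rfl⟩ := hx
      constructor
      · rw [← ps_zero w]; exact ps_mono hw.1 (Nat.zero_le k)
      · rw [← ps_last hw]; exact ps_mono hw.1 (by omega)
    have ha : a w = 0 := by
      apply le_antisymm
      · exact hale w 0 (by rw [hr]; exact hmem0 w)
      · have := hamem w
        rw [hr] at this
        exact (hbounds _ this).1
    have hz : z w = 1 := by
      apply le_antisymm
      · have := hzmem w
        rw [hr] at this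
        exact (hbounds _ this).2
      · exact hzge w 1 (by rw [hr]; exact hmem1 w hw)
    show (r (As w)).image (fun x => (x - a w) / (z w - a w)) = As w
    rw [hr, ha, hz]
    simp
  · intro δ hδ
    have hK : 0 < 4 * (C * (m + 1)) / (1 - 2 * κ) := by positivity
    refine ⟨δ / (4 * (C * (m + 1)) / (1 - 2 * κ)), by positivity, ?_⟩
    intro w hw w' hw' hww' b hb
    obtain ⟨x, hx, rfl⟩ := Finset.mem_image.mp hb
    obtain ⟨x', hx', hxx'⟩ := hlip w w' x hx
    refine ⟨(x' - a w') / (z w' - a w'), Finset.mem_image.mpr ⟨x', hx', rfl⟩, ?_⟩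
    set η : ℝ := C * ((m + 1) * ‖w - w'‖) with hη
    have hη0 : 0 ≤ η := by positivity
    have hD := hdiam w hw
    have hD' := hdiam w' hw'
    have hDpos : 0 < z w - a w := by linarith
    have hDpos' : 0 < z w' - a w' := by linarith
    have e1 := ha_lip w w'
    have e2 := ha_lip w' w
    have e3 := hz_lip w w'
    have e4 := hz_lip w' w
    rw [norm_sub_rev w' w] at e2 e4
    rw [← hη] at e1 e2 e3 e4
    have e5 := abs_le.mp hxx'
    have e6 := hale w' x' hx'
    have e7 := hzge w' x' hx'
    have key : (x - a w) / (z w - a w) - (x' - a w') / (z w' - a w') =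
        (((x - a w) - (x' - a w')) * (z w' - a w') +
          (x' - a w') * ((z w' - a w') - (z w - a w))) / ((z w - a w) * (z w' - a w')) := by
      field_simp
      ring
    have hnum : |((x - a w) - (x' - a w')) * (z w' - a w') +
          (x' - a w') * ((z w' - a w') - (z w - a w))| ≤ 4 * η * (z w' - a w') := by
      have f1 : |(x - a w) - (x' - a w')| ≤ 2 * η := by
        rw [abs_le]; constructor <;> linarith
      have f2 : |(z w' - a w') - (z w - a w)| ≤ 2 * η := by
        rw [abs_le]; constructor <;> linarith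
      have f3 : |x' - a w'| ≤ z w' - a w' := by
        rw [abs_le]; constructor <;> linarith
      calc _ ≤ |((x - a w) - (x' - a w')) * (z w' - a w')| +
            |(x' - a w') * ((z w' - a w') - (z w - a w))| := abs_add_le _ _
        _ = |(x - a w) - (x' - a w')| * (z w' - a w') +
            |x' - a w'| * |(z w' - a w') - (z w - a w)| := by
              rw [abs_mul, abs_mul, abs_of_pos hDpos']
        _ ≤ 2 * η * (z w' - a w') + (z w' - a w') * (2 * η) := by
              gcongr
        _ = 4 * η * (z w' - a w') := by ring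
    rw [key, abs_div, abs_of_pos (mul_pos hDpos hDpos'), div_le_iff₀ (mul_pos hDpos hDpos')]
    refine hnum.trans ?_
    have g1 : 4 * η ≤ δ * (1 - 2 * κ) := by
      have : ‖w - w'‖ * (4 * (C * (m + 1)) / (1 - 2 * κ)) ≤ δ := (le_div_iff₀ hK).mp hww'
      rw [mul_div_assoc', div_le_iff₀ hκ2] at this
      rw [hη]
      linarith
    have g2 : δ * (1 - 2 * κ) ≤ δ * (z w - a w) := mul_le_mul_of_nonneg_left hD hδ.le
    calc 4 * η * (z w' - a w') ≤ δ * (z w - a w) * (z w' - a w') :=
          mul_le_mul_of_nonneg_right (g1.trans g2) hDpos'.le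
      _ = δ * ((z w - a w) * (z w' - a w')) := by ring

open scoped RealInnerProductSpace in
/-- **The general case.** -/
theorem general {H : Type*} [NormedAddCommGroup H] [InnerProductSpace ℝ H] [Nontrivial H]
    (m : ℕ) (hev : Even m) (hm : 0 < m) (C : ℝ) (r : Finset H → Finset H)
    (h1 : ∀ s : Finset H, s.Nonempty → s.card ≤ m + 2 → (r s).Nonempty ∧ (r s).card ≤ m + 1)
    (h2 : ∀ s : Finset H, s.Nonempty → s.card ≤ m + 1 → r s = s)
    (h3 : ∀ s t : Finset H, s.Nonempty → s.card ≤ m + 2 → t.Nonempty → t.card ≤ m + 2 →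
      hausdorffDist (r s : Set H) (r t : Set H) ≤ C * hausdorffDist (s : Set H) (t : Set H)) :
    (m : ℝ) ≤ C := by
  classical
  obtain ⟨e, he⟩ := exists_norm_eq H (c := 1) zero_le_one
  let ι : ℝ → H := fun t => t • e
  let π : H → ℝ := fun x => ⟪e, x⟫
  have hπι : ∀ t, π (ι t) = t := by
    intro t
    show ⟪e, t • e⟫ = t
    rw [inner_smul_right, real_inner_self_eq_norm_sq, he]
    ring
  have hιd : ∀ s t, dist (ι s) (ι t) = dist s t := by
    intro s t
    rw [dist_eq_norm, ← sub_smul, norm_smul, he, mul_one, Real.dist_eq, Real.norm_eq_abs]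
  have hπd : ∀ x y, dist (π x) (π y) ≤ dist x y := by
    intro x y
    rw [Real.dist_eq, dist_eq_norm]
    show |⟪e, x⟫ - ⟪e, y⟫| ≤ _
    rw [← inner_sub_right]
    refine (abs_real_inner_le_norm _ _).trans ?_
    rw [he, one_mul]
  have hC : 0 ≤ C := by
    have := h3 {0} {e} (by simp) (by simp) (by simp) (by simp)
    rw [h2 {0} (by simp) (by simp), h2 {e} (by simp) (by simp)] at this
    simp only [Finset.coe_singleton, hausdorffDist_singleton, dist_zero_left, he] at this
    linarith
  refine line m hev hm C (fun s => (r (s.image ι)).image π) ?_ ?_ ?_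
  · intro s hs hc
    have := h1 (s.image ι) (hs.image ι) (Finset.card_image_le.trans hc)
    exact ⟨this.1.image π, Finset.card_image_le.trans this.2⟩
  · intro s hs hc
    show (r (s.image ι)).image π = s
    rw [h2 (s.image ι) (hs.image ι) (Finset.card_image_le.trans hc), Finset.image_image]
    ext x
    simp [hπι]
  · intro s t hs hsc ht htc
    have k1 := h1 (s.image ι) (hs.image ι) (Finset.card_image_le.trans hsc)
    have k2 := h1 (t.image ι) (ht.image ι) (Finset.card_image_le.trans htc)
    have k3 := h3 (s.image ι) (t.image ι) (hs.image ι) (Finset.card_image_le.trans hsc)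
      (ht.image ι) (Finset.card_image_le.trans htc)
    have k4 : hausdorffDist ((s.image ι : Finset H) : Set H) ((t.image ι : Finset H) : Set H) ≤
        hausdorffDist (s : Set ℝ) (t : Set ℝ) := by
      refine hausdorffDist_le_of_mem_dist hausdorffDist_nonneg ?_ ?_
      · intro x hx
        obtain ⟨y, hy, rfl⟩ := Finset.mem_image.mp (Finset.mem_coe.mp hx)
        obtain ⟨u, hu, hyu⟩ := exists_near hs ht hy
        exact ⟨ι u, Finset.mem_coe.mpr (Finset.mem_image_of_mem ι hu), by rw [hιd]; exact hyu⟩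
      · intro x hx
        obtain ⟨y, hy, rfl⟩ := Finset.mem_image.mp (Finset.mem_coe.mp hx)
        obtain ⟨u, hu, hyu⟩ := exists_near ht hs hy
        refine ⟨ι u, Finset.mem_coe.mpr (Finset.mem_image_of_mem ι hu), ?_⟩
        rw [hιd, hausdorffDist_comm]; exact hyu
    have k5 : hausdorffDist (((r (s.image ι)).image π : Finset ℝ) : Set ℝ)
        (((r (t.image ι)).image π : Finset ℝ) : Set ℝ) ≤
        hausdorffDist (r (s.image ι) : Set H) (r (t.image ι) : Set H) := by
      refine hausdorffDist_le_of_mem_dist hausdorffDist_nonneg ?_ ?_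
      · intro x hx
        obtain ⟨y, hy, rfl⟩ := Finset.mem_image.mp (Finset.mem_coe.mp hx)
        obtain ⟨u, hu, hyu⟩ := exists_near k1.1 k2.1 hy
        exact ⟨π u, Finset.mem_coe.mpr (Finset.mem_image_of_mem π hu), (hπd _ _).trans hyu⟩
      · intro x hx
        obtain ⟨y, hy, rfl⟩ := Finset.mem_image.mp (Finset.mem_coe.mp hx)
        obtain ⟨u, hu, hyu⟩ := exists_near k2.1 k1.1 hy
        refine ⟨π u, Finset.mem_coe.mpr (Finset.mem_image_of_mem π hu), (hπd _ _).trans ?_⟩
        rw [hausdorffDist_comm]; exact hyu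
    exact k5.trans (k3.trans (mul_le_mul_of_nonneg_left k4 hC))

end Pool.Agent.J6H35.DH
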